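import Pool.Agent.H77.TF.Cyc

/-!
# Module A7: the van Kampen lemma for spheres with one hole
-/

set_option autoImplicit false
set_option linter.unusedSectionVars false

namespace Pool.Agent.H77.TF

open Equiv Pool.Agent.H7.TF

section conn

variable {D : Type}

theorem conn_refl (α β : Perm D) (x : D) : conn α β x x := (conn α β).refl x

theorem conn_left {α β : Perm D} {x y : D} (h : α.SameCycle x y) : conn α β x y :=
  (le_sup_left : Perm.SameCycle.setoid α ≤ conn α β) h

theorem conn_right {α β : Perm D} {x y : D} (h : β.SameCycle x y) : conn α β x y :=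
  (le_sup_right : Perm.SameCycle.setoid β ≤ conn α β) h

theorem conn_symm {α β : Perm D} {x y : D} (h : conn α β x y) : conn α β y x :=
  (conn α β).symm h

theorem conn_trans {α β : Perm D} {x y z : D} (h : conn α β x y) (h' : conn α β y z) :
    conn α β x z := (conn α β).trans h h'

theorem sameCycle_apply (α : Perm D) (x : D) : α.SameCycle x (α x) := ⟨1, by simp⟩

theorem conn_apply_left (α β : Perm D) (x : D) : conn α β x (α x) :=
  conn_left (sameCycle_apply α x)

theorem conn_apply_right (α β : Perm D) (x : D) : conn α β x (β x) :=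
  conn_right (sameCycle_apply β x)

/-- an equivalence relation containing the orbits of both permutations contains `conn` -/
theorem conn_le {α β : Perm D} (S : Setoid D) (ha : ∀ x, S x (α x)) (hb : ∀ x, S x (β x)) :
    conn α β ≤ S := by
  have key : ∀ γ : Perm D, (∀ x, S x (γ x)) → Perm.SameCycle.setoid γ ≤ S := by
    intro γ hγ x y hxy
    obtain ⟨n, rfl⟩ := hxy
    have hnat : ∀ (n : ℕ) (x : D), S x ((γ ^ n) x) := by
      intro n
      induction n with
      | zero => intro x; exact S.refl x
      | succ n ih =>
        intro x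
        rw [pow_succ', Perm.mul_apply]
        exact S.trans (ih x) (hγ _)
    cases n with
    | ofNat n => simpa using hnat n x
    | negSucc n =>
      have h1 := hnat (n + 1) ((γ ^ Int.negSucc n) x)
      have h2 : (γ ^ (n + 1)) ((γ ^ Int.negSucc n) x) = x := by
        rw [zpow_negSucc, ← Perm.mul_apply, mul_inv_cancel, Perm.one_apply]
      rw [h2] at h1
      exact S.symm h1
  exact sup_le (key α ha) (key β hb)

theorem sameCycle_mul_conn {α β : Perm D} {x y : D} (h : (α * β).SameCycle x y) :
    conn α β x y := by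
  have h1 : conn (α * β) 1 ≤ conn α β := conn_le _
    (fun x => conn_trans (conn_apply_right α β x) (conn_apply_left α β (β x)))
    (fun x => conn_refl α β x)
  exact h1 (conn_left h)

/-- an isolated dart -/
theorem conn_isolated {α β : Perm D} {d z : D} (ha : α d = d) (hb : β d = d)
    (h : conn α β d z) : z = d := by
  let S : Setoid D :=
    { r := fun x y => x = d ↔ y = d
      iseqv := ⟨fun _ => Iff.rfl, fun h => h.symm, fun h h' => h.trans h'⟩ }
  have h1 : conn α β ≤ S := by
    refine conn_le S (fun x => ?_) (fun x => ?_)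
    · show x = d ↔ α x = d
      constructor
      · rintro rfl; exact ha
      · intro hx; exact α.injective (hx.trans ha.symm)
    · show x = d ↔ β x = d
      constructor
      · rintro rfl; exact hb
      · intro hx; exact β.injective (hx.trans hb.symm)
  exact (h1 h).1 rfl

end conn

section nc

/-- a permutation without fixed points has at most `|D| / 2` cycles -/
theorem two_mul_nc_le {D : Type} [Finite D] (α : Perm D) (h : ∀ x, α x ≠ x) :
    2 * nc α ≤ Nat.card D := by
  classical
  have : Fintype D := Fintype.ofFinite D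
  have hq : Finite (Quotient (Perm.SameCycle.setoid α)) := Quotient.finite _
  let f : Quotient (Perm.SameCycle.setoid α) × Bool → D := fun p =>
    if p.2 then α p.1.out else p.1.out
  have hf : Function.Injective f := by
    rintro ⟨c, s⟩ ⟨c', s'⟩ hcc
    have hcl : ∀ (c : Quotient (Perm.SameCycle.setoid α)) (s : Bool),
        (Quotient.mk _ (f (c, s)) : Quotient (Perm.SameCycle.setoid α)) = c := by
      intro c s
      cases s with
      | false => exact Quotient.out_eq c
      | true =>
        have h1 : (Quotient.mk _ (α c.out) : Quotient (Perm.SameCycle.setoid α)) =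
            Quotient.mk _ c.out := Quotient.sound (sameCycle_apply α c.out).symm
        exact h1.trans (Quotient.out_eq c)
    have h1 : c = c' := by rw [← hcl c s, hcc, hcl]
    subst h1
    cases s <;> cases s' <;> first | rfl | skip
    · exact absurd hcc.symm (h _)
    · exact absurd hcc (h _)
  have h1 := Nat.card_le_card_of_injective f hf
  rw [Nat.card_prod, Nat.card_eq_fintype_card (α := Bool), Fintype.card_bool] at h1
  unfold nc
  omega

end nc

section del

variable {D : Type} [Finite D] [DecidableEq D] {G : Type} [Group G]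

/-- deletion of the dart `d` -/
def sdel (σ : Perm D) (d : D) : Perm D := σ * swap d (σ⁻¹ d)

/-- deletion of the dart `d` -/
def tdel (θ : Perm D) (d : D) : Perm D := swap d (θ d) * θ

theorem sdel_self (σ : Perm D) (d : D) : sdel σ d d = d := by
  rw [sdel, Perm.mul_apply, swap_apply_left]
  simp

theorem tdel_self (θ : Perm D) (d : D) : tdel θ d d = d := by
  rw [tdel, Perm.mul_apply, swap_apply_right]

theorem sdel_mul_tdel (σ θ : Perm D) (d : D) :
    sdel σ d * tdel θ d = swap (σ d) d * (swap (σ d) ((σ * θ) d) * (σ * θ)) := by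
  have h1 : σ * swap d (σ⁻¹ d) = swap (σ d) d * σ := by
    rw [mul_swap_eq_swap_mul]
    simp
  have h2 : σ * swap d (θ d) = swap (σ d) ((σ * θ) d) * σ := by
    rw [mul_swap_eq_swap_mul]
    rfl
  rw [sdel, tdel, h1, mul_assoc, ← mul_assoc σ, h2, mul_assoc]

theorem sdel_inv (σ : Perm D) (d y : D) : (sdel σ d)⁻¹ y = swap d (σ⁻¹ d) (σ⁻¹ y) := by
  rw [sdel, mul_inv_rev, swap_inv, Perm.mul_apply]

theorem lab_sdel (σ : Perm D) (H : D → G) {d y : D} (h1 : y ≠ d) (h2 : y ≠ σ d) :
    lab (sdel σ d) H y = lab σ H y := by
  rw [lab, lab, sdel_inv, swap_apply_of_ne_of_ne]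
  · rintro h
    apply h2
    rw [← h]
    simp
  · intro h
    exact h1 (σ⁻¹.injective h)

theorem lab_sdel_self (σ : Perm D) (H : D → G) (d : D) : lab (sdel σ d) H d = 1 := by
  rw [lab, sdel_inv, swap_apply_right, inv_mul_cancel]

theorem lab_sdel_apply (σ : Perm D) (H : D → G) (d : D) :
    lab (sdel σ d) H (σ d) = lab σ H d * lab σ H (σ d) := by
  have h1 : σ⁻¹ (σ d) = d := by simp
  rw [lab, lab, lab, sdel_inv, h1, swap_apply_left]
  group

theorem cycProd_sdel (σ θ : Perm D) (H : D → G) {d : D} (hd : σ d ≠ d) :
    cycProd (sdel σ d * tdel θ d) (lab (sdel σ d) H) (σ d) =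
      cycProd (swap (σ d) ((σ * θ) d) * (σ * θ)) (lab σ H) d := by
  set φ₁ := swap (σ d) ((σ * θ) d) * (σ * θ) with hφ₁
  have h1 : φ₁ d = σ d := by
    rw [hφ₁, Perm.mul_apply, swap_apply_right]
  have h2 : sdel σ d * tdel θ d = swap (φ₁ d) d * φ₁ := by
    rw [sdel_mul_tdel, h1]
  obtain ⟨h3, h4⟩ := cycProd_remove φ₁ (lab σ H) (d := d) (by rw [h1]; exact hd)
  rw [← h2, h1] at h3 h4
  rw [h4, cycProd_change (sdel σ d * tdel θ d) (lab σ H) (lab (sdel σ d) H) (σ d)
    (fun z hz hne => lab_sdel σ H (fun h => h3 (h ▸ hz).symm) hne), lab_sdel_apply]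
  group

/-- the cycle after removing a point -/
theorem remove_sameCycle {φ : Perm D} {d e : D} (hd : φ d ≠ d) (h : φ.SameCycle d e) :
    e = d ∨ (swap (φ d) d * φ).SameCycle (φ d) e := by
  set ψ : Perm D := swap (φ d) d * φ with hψ
  have h1 : ψ d = d := by rw [hψ, Perm.mul_apply, swap_apply_left]
  have h2 : ¬ ψ.SameCycle d (φ d) := (cycProd_remove φ (fun _ => (1 : Perm D)) hd).1
  have h3 : φ = swap d (φ d) * ψ := by
    rw [hψ, swap_comm d (φ d), ← mul_assoc, swap_mul_self, one_mul]
  have h4 := (merge_sameCycle h2 e).1 (by rw [← h3]; exact h)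
  rcases h4 with h5 | h5
  · left
    obtain ⟨n, hn⟩ := h5
    rw [← hn]
    exact Perm.zpow_apply_eq_self_of_apply_eq_self h1 n
  · exact Or.inr h5

theorem card_lt {σ θ σ' θ' : Perm D} {d0 d0' d : D} (hle : conn σ' θ' ≤ conn σ θ)
    (h0 : conn σ θ d0 d0') (hd : conn σ θ d0 d) (hd' : ¬ conn σ' θ' d0' d) :
    Nat.card {z // conn σ' θ' d0' z} < Nat.card {z // conn σ θ d0 z} := by
  have h1 : {z | conn σ' θ' d0' z} ⊂ {z | conn σ θ d0 z} := by
    refine ⟨fun z hz => conn_trans h0 (hle hz), fun hcon => hd' (hcon hd)⟩
  exact Set.ncard_lt_ncard h1 (Set.toFinite _)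

end del

/-- in a component with one face some dart is a fixed point of `σ` or of `θ` -/
theorem exists_leaf (hA5 : T_A5) {D : Type} [Fintype D] [DecidableEq D] (σ θ : Perm D)
    (hpl : Planar σ θ) (d0 : D) (h : ∀ z, conn σ θ d0 z → (σ * θ).SameCycle d0 z) :
    ∃ d, conn σ θ d0 d ∧ (σ d = d ∨ θ d = d) := by
  classical
  by_contra hcon
  push Not at hcon
  obtain ⟨hα, hβ, hpl', hcon'⟩ := hA5 D σ θ d0 hpl
  set α' := σ.subtypePerm hα with hα'
  set β' := θ.subtypePerm hβ with hβ'
  have h1 : 2 * nc α' ≤ Nat.card {d // conn σ θ d0 d} := two_mul_nc_le α' fun x hx =>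
    (hcon x x.2).1 (congrArg Subtype.val hx)
  have h2 : 2 * nc β' ≤ Nat.card {d // conn σ θ d0 d} := two_mul_nc_le β' fun x hx =>
    (hcon x x.2).2 (congrArg Subtype.val hx)
  let x0 : {d // conn σ θ d0 d} := ⟨d0, conn_refl σ θ d0⟩
  have h3 : comps α' β' = 1 := by
    unfold comps
    rw [Nat.card_eq_one_iff_unique]
    refine ⟨⟨fun a b => ?_⟩, ⟨Quotient.mk _ x0⟩⟩
    induction a using Quotient.inductionOn with | h a => ?_
    induction b using Quotient.inductionOn with | h b => ?_
    exact Quotient.sound (hcon' a b)
  have hpow : ∀ (n : ℕ) (a : {d // conn σ θ d0 d}),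
      (((α' * β') ^ n) a : {d // conn σ θ d0 d}).1 = ((σ * θ) ^ n) a.1 := by
    intro n
    induction n with
    | zero => intro a; rfl
    | succ n ih =>
      intro a
      have h := ih a
      rw [pow_succ' (α' * β') n, pow_succ' (σ * θ) n, Perm.mul_apply (α' * β'),
        Perm.mul_apply (σ * θ), ← h]
      rfl
  have hsc : ∀ a : {d // conn σ θ d0 d}, (α' * β').SameCycle x0 a := by
    intro a
    obtain ⟨i, _, hi⟩ := exists_lt_per (h a.1 a.2)
    refine sameCycle_pow' i (Subtype.ext ?_)
    rw [hpow, ← hi]
  have h4 : nc (α' * β') = 1 := by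
    unfold nc
    rw [Nat.card_eq_one_iff_unique]
    refine ⟨⟨fun a b => ?_⟩, ⟨Quotient.mk _ x0⟩⟩
    induction a using Quotient.inductionOn with | h a => ?_
    induction b using Quotient.inductionOn with | h b => ?_
    exact Quotient.sound ((hsc a).symm.trans (hsc b))
  have h5 : nc α' + nc β' + nc (α' * β') = Nat.card {d // conn σ θ d0 d} + 2 * comps α' β' :=
    hpl'
  omega

theorem A7_aux (hA4 : T_A4) (hA5 : T_A5) {D : Type} [Fintype D] [DecidableEq D] {G : Type}
    [Group G] (H : D → G) : ∀ (n : ℕ) (σ θ : Perm D) (d0 : D), Planar σ θ →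
    Nat.card {z // conn σ θ d0 z} ≤ n →
    (∀ d, conn σ θ d0 d → ¬ (σ * θ).SameCycle d0 d → cycProd (σ * θ) (lab σ H) d = 1) →
    cycProd (σ * θ) (lab σ H) d0 = 1 := by
  intro n
  induction n with
  | zero =>
    intro σ θ d0 _ hcard _
    have h1 : 0 < Nat.card {z // conn σ θ d0 z} :=
      Nat.card_pos_iff.2 ⟨⟨⟨d0, conn_refl σ θ d0⟩⟩, inferInstance⟩
    omega
  | succ n ih =>
    intro σ θ d0 hpl hcard hyp
    by_cases hK : ∃ d, conn σ θ d0 d ∧ ¬ (σ * θ).SameCycle d (σ d)
    · -- two different faces
      obtain ⟨d, hd, hne⟩ := hK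
      have hσd : σ d ≠ d := fun h => hne (by rw [h])
      have hne' : ¬ (σ * θ).SameCycle (σ d) ((σ * θ) d) := fun h =>
        hne ((sameCycle_apply _ d).trans h.symm)
      set φ := σ * θ with hφ
      set φ₁ := swap (σ d) (φ d) * φ with hφ₁
      have hφ₁d : φ₁ d = σ d := by
        rw [hφ₁, Perm.mul_apply, swap_apply_right]
      set σ' := sdel σ d with hσ'
      set θ' := tdel θ d with hθ'
      have hφ₂ : σ' * θ' = swap (φ₁ d) d * φ₁ := by
        rw [hφ₁d]
        exact sdel_mul_tdel σ θ d
      obtain ⟨hpl', hle⟩ : Planar σ' θ' ∧ conn σ' θ' ≤ conn σ θ := (hA4 D σ θ d hpl).2.2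
      have hiso : ∀ z, conn σ' θ' d z → z = d := fun z hz =>
        conn_isolated (sdel_self σ d) (tdel_self θ d) hz
      have hmerge : cycProd φ₁ (lab σ H) (σ d) =
          cycProd φ (lab σ H) (σ d) * cycProd φ (lab σ H) (φ d) := cycProd_merge φ _ hne'
      have hsc : ∀ z, φ₁.SameCycle (σ d) z ↔ φ.SameCycle (σ d) z ∨ φ.SameCycle (φ d) z :=
        merge_sameCycle hne'
      have hdφ : φ.SameCycle d (φ d) := sameCycle_apply φ d
      have hR : cycProd (σ' * θ') (lab σ' H) (σ d) = cycProd φ₁ (lab σ H) d :=
        cycProd_sdel σ θ H hσd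
      have hR1 : cycProd φ₁ (lab σ H) d = 1 ↔ cycProd φ₁ (lab σ H) (σ d) = 1 :=
        cycProd_eq_one_iff (hφ₁d ▸ sameCycle_apply φ₁ d)
      -- cycles away from `d` and `σ d`
      have hoff : ∀ z, ¬ φ.SameCycle d z → ¬ φ.SameCycle (σ d) z →
          ∀ y, φ.SameCycle z y → (σ' * θ') y = φ y ∧ lab σ' H y = lab σ H y := by
        intro z hz1 hz2 y hy
        have hy1 : ¬ φ.SameCycle d y := fun h => hz1 (h.trans hy.symm)
        have hy2 : ¬ φ.SameCycle (σ d) y := fun h => hz2 (h.trans hy.symm)
        constructor
        · rw [hφ₂, hφ₁d, Perm.mul_apply, hφ₁, Perm.mul_apply]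
          have e1 : φ y ≠ σ d := fun h => hy2 (h ▸ (sameCycle_apply φ y).symm)
          have e2 : φ y ≠ φ d := fun h => hy1 (by
            rw [φ.injective h])
          have e3 : φ y ≠ d := fun h => hy1 (h ▸ (sameCycle_apply φ y).symm)
          rw [swap_apply_of_ne_of_ne e1 e2, swap_apply_of_ne_of_ne e1 e3]
        · refine lab_sdel σ H ?_ ?_
          · rintro rfl
            exact hy1 (Perm.SameCycle.refl _ _)
          · rintro rfl
            exact hy2 (Perm.SameCycle.refl _ _)
      have hoffp : ∀ z, ¬ φ.SameCycle d z → ¬ φ.SameCycle (σ d) z →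
          cycProd (σ' * θ') (lab σ' H) z = cycProd φ (lab σ H) z := fun z hz1 hz2 =>
        cycProd_eq_of_agree (fun y hy => (hoff z hz1 hz2 y hy).1)
          (fun y hy => (hoff z hz1 hz2 y hy).2)
      have hoffc : ∀ z, ¬ φ.SameCycle d z → ¬ φ.SameCycle (σ d) z →
          ∀ e, (σ' * θ').SameCycle z e ↔ φ.SameCycle z e := fun z hz1 hz2 e =>
        sameCycle_iff_of_agree (fun y hy => (hoff z hz1 hz2 y hy).1) e
      -- the merged cycle
      have hmc : ∀ z, φ.SameCycle d z ∨ φ.SameCycle (σ d) z →
          z = d ∨ (σ' * θ').SameCycle (σ d) z := by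
        intro z hz
        have h1 : φ₁.SameCycle (σ d) z := by
          rw [hsc]
          rcases hz with hz | hz
          · exact Or.inr (hdφ.symm.trans hz)
          · exact Or.inl hz
        have h2 : φ₁.SameCycle d z := (sameCycle_apply φ₁ d).trans (hφ₁d.symm ▸ h1)
        have h3 := remove_sameCycle (φ := φ₁) (d := d) (by rw [hφ₁d]; exact hσd) h2
        rwa [← hφ₂, hφ₁d] at h3
      have hself : cycProd (σ' * θ') (lab σ' H) d = 1 := by
        have h1 : (σ' * θ') d = d := by
          rw [Perm.mul_apply, hθ', tdel_self, hσ', sdel_self]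
        have h2 : per (σ' * θ') d = 1 := per_eq_of _ d one_pos (by simpa using h1) (by omega)
        unfold per at h2
        unfold cycProd
        rw [h2]
        simp [hσ', lab_sdel_self]
      have hcardn : ∀ d0', conn σ θ d0 d0' → d0' ≠ d →
          Nat.card {z // conn σ' θ' d0' z} ≤ n := by
        intro d0' h0 hne0
        have := card_lt hle h0 hd (fun h => hne0 (hiso _ (conn_symm h)))
        omega
      have hφdprod : cycProd φ (lab σ H) d = 1 ↔ cycProd φ (lab σ H) (φ d) = 1 :=
        cycProd_eq_one_iff hdφ
      have hconσd : conn σ θ d0 (σ d) := conn_trans hd (conn_apply_left σ θ d)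
      by_cases hc : φ.SameCycle d d0 ∨ φ.SameCycle (σ d) d0
      · -- the base point is on one of the two faces
        have h1 := ih σ' θ' (σ d) hpl' (hcardn _ hconσd hσd) (by
          intro e he hne2
          by_cases he1 : φ.SameCycle d e ∨ φ.SameCycle (σ d) e
          · rcases hmc e he1 with rfl | h2
            · exact hself
            · exact absurd h2 hne2
          · push Not at he1
            rw [hoffp e he1.1 he1.2]
            refine hyp e (conn_trans hconσd (hle he)) fun h => ?_
            rcases hc with hc | hc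
            · exact he1.1 (hc.trans h)
            · exact he1.2 (hc.trans h))
        rw [hR, hR1, hmerge] at h1
        rcases hc with hc | hc
        · have h2 : cycProd φ (lab σ H) (σ d) = 1 :=
            hyp (σ d) hconσd (fun h => hne (hc.trans h))
          rw [h2, one_mul, ← hφdprod] at h1
          exact (cycProd_eq_one_iff hc).1 h1
        · have h2 : cycProd φ (lab σ H) d = 1 :=
            hyp d hd (fun h => hne (hc.trans h).symm)
          rw [hφdprod.1 h2, mul_one] at h1
          exact (cycProd_eq_one_iff hc).1 h1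
      · -- the base point is on another face
        push Not at hc
        have hd0 : d0 ≠ d := fun h => hc.1 (h ▸ Perm.SameCycle.refl _ _)
        have h1 := ih σ' θ' d0 hpl' (hcardn d0 (conn_refl σ θ d0) hd0) (by
          intro e he hne2
          by_cases he1 : φ.SameCycle d e ∨ φ.SameCycle (σ d) e
          · rcases hmc e he1 with rfl | h2
            · exact hself
            · rw [← cycProd_eq_one_iff h2, hR, hR1, hmerge,
                hyp (σ d) hconσd (fun h => hc.2 h.symm),
                hφdprod.1 (hyp d hd (fun h => hc.1 h.symm)), mul_one]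
          · push Not at he1
            rw [hoffp e he1.1 he1.2]
            refine hyp e (hle he) fun h => hne2 ?_
            rw [hoffc d0 hc.1 hc.2]
            exact h)
        rwa [hoffp d0 hc.1 hc.2] at h1
    · -- one face
      push Not at hK
      have hone : ∀ z, conn σ θ d0 z → (σ * θ).SameCycle d0 z := by
        let S : Setoid D :=
          { r := fun x y => (conn σ θ d0 x ∧ conn σ θ d0 y ∧ (σ * θ).SameCycle x y) ∨
              (¬ conn σ θ d0 x ∧ ¬ conn σ θ d0 y)
            iseqv := by
              refine ⟨fun x => ?_, fun {x y} h => ?_, fun {x y z} h h' => ?_⟩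
              · by_cases hx : conn σ θ d0 x
                · exact Or.inl ⟨hx, hx, Perm.SameCycle.refl _ _⟩
                · exact Or.inr ⟨hx, hx⟩
              · rcases h with ⟨h1, h2, h3⟩ | ⟨h1, h2⟩
                · exact Or.inl ⟨h2, h1, h3.symm⟩
                · exact Or.inr ⟨h2, h1⟩
              · rcases h with ⟨h1, h2, h3⟩ | ⟨h1, h2⟩
                · rcases h' with ⟨h4, h5, h6⟩ | ⟨h4, h5⟩
                  · exact Or.inl ⟨h1, h5, h3.trans h6⟩
                  · exact absurd h2 h4
                · rcases h' with ⟨h4, h5, h6⟩ | ⟨h4, h5⟩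
                  · exact absurd h4 h2
                  · exact Or.inr ⟨h1, h5⟩ }
        have hS : conn σ θ ≤ S := by
          refine conn_le S (fun x => ?_) (fun x => ?_)
          · by_cases hx : conn σ θ d0 x
            · exact Or.inl ⟨hx, conn_trans hx (conn_apply_left σ θ x), hK x hx⟩
            · exact Or.inr ⟨hx, fun h => hx (conn_trans h (conn_symm (conn_apply_left σ θ x)))⟩
          · by_cases hx : conn σ θ d0 x
            · have hx' := conn_trans hx (conn_apply_right σ θ x)
              refine Or.inl ⟨hx, hx', ?_⟩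
              exact (sameCycle_apply (σ * θ) x).trans (hK (θ x) hx').symm
            · exact Or.inr ⟨hx, fun h => hx (conn_trans h (conn_symm (conn_apply_right σ θ x)))⟩
        intro z hz
        rcases hS hz with ⟨_, _, h⟩ | ⟨h, _⟩
        · exact h
        · exact absurd (conn_refl σ θ d0) h
      obtain ⟨d, hd, hleaf⟩ := exists_leaf hA5 σ θ hpl d0 hone
      have hd0 : (σ * θ).SameCycle d0 d := hone d hd
      obtain ⟨hpl', hle⟩ : Planar (sdel σ d) (tdel θ d) ∧
          conn (sdel σ d) (tdel θ d) ≤ conn σ θ := (hA4 D σ θ d hpl).2.2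
      have hiso : ∀ z, conn (sdel σ d) (tdel θ d) d z → z = d := fun z hz =>
        conn_isolated (sdel_self σ d) (tdel_self θ d) hz
      rw [cycProd_eq_one_iff hd0]
      by_cases hfix : (σ * θ) d = d
      · -- the cycle is `{d}`
        have h1 : σ d = d := by
          rcases hleaf with h | h
          · exact h
          · rwa [Perm.mul_apply, h] at hfix
        have h2 : per (σ * θ) d = 1 := per_eq_of _ d one_pos (by simpa using hfix) (by omega)
        unfold per at h2
        unfold cycProd
        rw [h2]
        have h3 : σ⁻¹ d = d := by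
          rw [Perm.inv_eq_iff_eq]
          exact h1.symm
        simp only [List.range_one, List.map_cons, List.map_nil, List.prod_cons, List.prod_nil,
          mul_one, pow_zero, Perm.one_apply]
        rw [lab, h3, inv_mul_cancel]
      · have hcon2 : conn σ θ d0 ((σ * θ) d) :=
          conn_trans hd (sameCycle_mul_conn (sameCycle_apply _ d))
        have hφ₂ : sdel σ d * tdel θ d = swap ((σ * θ) d) d * (σ * θ) := by
          rw [sdel_mul_tdel]
          rcases hleaf with h | h
          · rw [h, swap_self]
            have : (Equiv.refl D : Perm D) = 1 := rfl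
            rw [this, one_mul, swap_comm]
          · have h4 : (σ * θ) d = σ d := by rw [Perm.mul_apply, h]
            rw [h4, swap_self]
            have : (Equiv.refl D : Perm D) = 1 := rfl
            rw [this, one_mul]
        have hcard' : Nat.card {z // conn (sdel σ d) (tdel θ d) ((σ * θ) d) z} ≤ n := by
          have := card_lt hle hcon2 hd (fun h => hfix (hiso _ (conn_symm h)))
          omega
        have h1 := ih (sdel σ d) (tdel θ d) ((σ * θ) d) hpl' hcard' (by
          intro e he hne2
          exfalso
          have he' : (σ * θ).SameCycle d e := hd0.symm.trans (hone e (conn_trans hcon2 (hle he)))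
          rcases remove_sameCycle hfix he' with rfl | h2
          · exact hfix (hiso _ (conn_symm he))
          · rw [← hφ₂] at h2
            exact hne2 h2)
        by_cases hσd : σ d = d
        · -- a leaf at a secondary vertex
          have h2 := (cycProd_remove (σ * θ) (lab σ H) hfix).2
          rw [← hφ₂] at h2
          have h3 : sdel σ d = σ := by
            have h4 : σ⁻¹ d = d := by
              rw [Perm.inv_eq_iff_eq]
              exact hσd.symm
            rw [sdel, h4, swap_self]
            exact mul_one σ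
          have h5 : lab σ H d = 1 := by
            have := lab_sdel_self σ H d
            rwa [h3] at this
          rw [h2, h5, one_mul]
          rw [h3] at h1 ⊢
          exact h1
        · have hθd : θ d = d := by
            rcases hleaf with h | h
            · exact absurd h hσd
            · exact h
          have h4 : (σ * θ) d = σ d := by rw [Perm.mul_apply, hθd]
          have h2 := cycProd_sdel σ θ H hσd
          rw [h4, swap_self] at h2
          have h3 : (Equiv.refl D : Perm D) = 1 := rfl
          rw [h3, one_mul] at h2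
          rw [← h2]
          rwa [h4] at h1

theorem A7 (hA4 : T_A4) (hA5 : T_A5) : T_A7 := by
  intro D _ _ σ θ hpl G _ H d0 hyp
  exact A7_aux hA4 hA5 H _ σ θ d0 hpl le_rfl hyp

end Pool.Agent.H77.TF
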