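import Pool.Agent.H77.TF.A7

/-!
# Module C4: simply connected regions without holes have at least four sides
-/

set_option autoImplicit false
set_option linter.unusedSectionVars false
set_option linter.unusedSimpArgs false
set_option linter.unnecessarySeqFocus false

namespace Pool.Agent.H77.TF

open Equiv Pool.Agent.H7.TF

section

variable {P : Type} [Group P] (c : Ctx P)

theorem mem_O {d : c.D} : d ∈ c.O ↔ ∃ s k, k < 2 ∧ c.kind d = some (c.R.length, s, k) := by
  constructor
  · rintro ⟨s, h | h⟩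
    · exact ⟨s, 0, by norm_num, h⟩
    · exact ⟨s, 1, by norm_num, h⟩
  · rintro ⟨s, k, hk, h⟩
    obtain rfl | rfl : k = 0 ∨ k = 1 := by omega
    · exact ⟨s, Or.inl h⟩
    · exact ⟨s, Or.inr h⟩

theorem word_length : (Rel.word (⟨c.l, c.m, c.a, c.b, c.g⟩ : Rel P)).length = c.g.length + 2 := by
  simp [Rel.word, invW]

/-- the relator of level `n` -/
theorem top_rel {d : c.D} {s : Bool} {k : ℕ} (h : c.kind d = some (c.R.length, s, k)) :
    (Rel.word (⟨c.l, c.m, c.a, c.b, c.g⟩ : Rel P))[k]? =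
        some (c.ty d, if s then lab c.σ c.h d else (lab c.σ c.h d)⁻¹) ∧
      ((c.σ * c.θ) ^ (c.g.length + 2)) d = d := by
  obtain ⟨r, hr, h1, _, h3⟩ := c.pic.rel d _ s k h
  have e : r = ⟨c.l, c.m, c.a, c.b, c.g⟩ := by
    rw [List.getElem?_append_right le_rfl] at hr
    simp at hr
    exact hr.symm
  subst e
  rw [word_length] at h3
  exact ⟨h1, h3⟩

theorem ty_zero {d : c.D} {s : Bool} (h : c.kind d = some (c.R.length, s, 0)) :
    c.ty d = c.l := by
  have h1 := (top_rel c h).1
  simp only [Rel.word, List.getElem?_cons_zero, Option.some.injEq, Prod.mk.injEq] at h1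
  exact h1.1.symm

theorem ty_one {d : c.D} {s : Bool} (h : c.kind d = some (c.R.length, s, 1)) :
    c.ty d = c.m := by
  have h1 := (top_rel c h).1
  simp only [Rel.word, List.getElem?_cons_succ, List.getElem?_cons_zero, Option.some.injEq,
    Prod.mk.injEq] at h1
  exact h1.1.symm

/-- the exponent leading to the partner -/
theorem rl_add (n : ℕ) (s : Bool) {k : ℕ} (hk : k < 2) :
    rl n s k + 1 + (rl n s (1 - k) + 1) = n + 2 := by
  obtain rfl | rfl : k = 0 ∨ k = 1 := by omega
  all_goals cases s <;> simp [rl] <;> omega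

end

/-- every face of the top level has two output corners -/
theorem C4_second (hC0 : T_C0) {P : Type} [Group P] (c : Ctx P) :
    Nat.card c.O = 2 * Pool.Agent.H7.TF.mt (c.σ * c.θ) c.O := by
  classical
  obtain ⟨hC1, _, _⟩ := hC0 P c
  set φ := c.σ * c.θ with hφ
  set n := c.R.length with hn
  -- the outputs at position `k`
  let Ok : ℕ → Set c.D := fun k => {d | ∃ s, c.kind d = some (n, s, k)}
  have hOk : ∀ k, k < 2 → ∀ d ∈ Ok k, d ∈ c.O := by
    rintro k hk d ⟨s, h⟩
    exact (mem_O c).2 ⟨s, k, hk, h⟩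
  have hbij : ∀ k, k < 2 → Nat.card (Ok k) = Pool.Agent.H7.TF.mt φ c.O := by
    intro k hk
    unfold Pool.Agent.H7.TF.mt
    refine Nat.card_congr (Equiv.ofBijective
      (fun d : Ok k => (⟨Quotient.mk _ d.1, d.1, hOk k hk d.1 d.2, rfl⟩ :
        {q : Quotient (Perm.SameCycle.setoid φ) // ∃ x ∈ c.O, Quotient.mk _ x = q})) ⟨?_, ?_⟩)
    · rintro ⟨x, s, hx⟩ ⟨y, s', hy⟩ hxy
      have h1 : φ.SameCycle x y := Quotient.exact (congrArg Subtype.val hxy)
      apply Subtype.ext
      show x = y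
      obtain ⟨i, hi⟩ := h1.exists_nat_pow_eq
      have hL := (top_rel c hx).2
      have hpos : 0 < c.g.length + 2 := by omega
      -- reduce the exponent
      have hi' : (φ ^ (i % (c.g.length + 2))) x = y := by
        rw [← hi]
        conv_rhs => rw [← Nat.mod_add_div i (c.g.length + 2)]
        rw [pow_add, Perm.mul_apply, pow_mul]
        congr 1
        have : ∀ j : ℕ, ((φ ^ (c.g.length + 2)) ^ j) x = x := by
          intro j
          induction j with
          | zero => rfl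
          | succ j ih => rw [pow_succ, Perm.mul_apply, hL, ih]
        exact (this _).symm
      set j := i % (c.g.length + 2) with hj
      have hjlt : j < c.g.length + 2 := Nat.mod_lt _ hpos
      obtain ⟨_, _, _, h4, h5, _, _⟩ := hC1 x s k hx hk
      obtain ⟨_, _, _, h4', _, _, _⟩ := hC1 _ s (1 - k) h5 (by omega)
      have hyO : y ∈ c.O := (mem_O c).2 ⟨s', k, hk, hy⟩
      have hadd := rl_add c.g.length s hk
      rcases Nat.eq_zero_or_pos j with h0 | h0
      · rw [h0] at hi'
        exact hi'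
      · by_cases hj1 : j ≤ rl c.g.length s k
        · exact absurd (hi' ▸ hyO) (h4 j h0 hj1).1
        · by_cases hj2 : j = rl c.g.length s k + 1
          · rw [hj2] at hi'
            rw [hi', hy] at h5
            simp only [Option.some.injEq, Prod.mk.injEq] at h5
            omega
          · obtain ⟨t, ht⟩ : ∃ t, j = t + (rl c.g.length s k + 1) :=
              ⟨j - (rl c.g.length s k + 1), by omega⟩
            rw [ht, pow_add, Perm.mul_apply] at hi'
            exact absurd (hi' ▸ hyO) (h4' t (by omega) (by omega)).1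
    · rintro ⟨q, x, hx, rfl⟩
      obtain ⟨s, k', hk', hx'⟩ := (mem_O c).1 hx
      by_cases hkk : k' = k
      · subst hkk
        exact ⟨⟨x, s, hx'⟩, rfl⟩
      · obtain ⟨_, _, _, _, h5, _, _⟩ := hC1 x s k' hx' hk'
        have hk1 : 1 - k' = k := by omega
        rw [hk1] at h5
        refine ⟨⟨_, s, h5⟩, Subtype.ext ?_⟩
        exact Quotient.sound (sameCycle_pow φ x _).symm
  have hsplit : Nat.card c.O = Nat.card (Ok 0) + Nat.card (Ok 1) := by
    have h1 : c.O = Ok 0 ∪ Ok 1 := by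
      ext d
      constructor
      · rintro ⟨s, h | h⟩
        · exact Or.inl ⟨s, h⟩
        · exact Or.inr ⟨s, h⟩
      · rintro (⟨s, h⟩ | ⟨s, h⟩)
        · exact ⟨s, Or.inl h⟩
        · exact ⟨s, Or.inr h⟩
    have h2 : Disjoint (Ok 0) (Ok 1) := by
      rw [Set.disjoint_left]
      rintro d ⟨s, h⟩ ⟨s', h'⟩
      rw [h] at h'
      simp at h'
    rw [h1]
    exact Set.ncard_union_eq h2 (Set.toFinite _) (Set.toFinite _)
  rw [hsplit, hbij 0 (by norm_num), hbij 1 (by norm_num)]
  ring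

/-- the next output on a face of the cut picture -/
theorem region_four (hB10 : T_B10) (hC0 : T_C0) (hC1 : T_C1) {P : Type} [Group P] (c : Ctx P)
    (q : c.Reg) (ht : c.tQ q = 1) (hb : c.bQ q = 0) : 4 ≤ c.mQ q := by
  classical
  obtain ⟨hF, hG, _⟩ := hC0 P c
  obtain ⟨hpic, _, _⟩ := hC1 P c
  set n := c.R.length with hn
  set φ := c.σ * c.θ with hφ
  set N := c.ω * φ with hN
  have hNeq : c.ω * c.σ * c.θ = N := by rw [hN, hφ, mul_assoc]
  have hrgN : ∀ (i : ℕ) (z : c.D), c.rg ((N ^ i) z) = c.rg z := by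
    intro i z
    refine Quotient.sound (conn_symm ?_)
    refine sameCycle_mul_conn ?_
    rw [hNeq]
    exact sameCycle_pow N z i
  -- the partner
  have hpart : ∀ o s k, c.kind o = some (n, s, k) → k < 2 →
      ∃ o1 : c.D, c.kind ((φ ^ (rl c.g.length s k + 1)) o) = some (n, s, 1 - k) ∧
        o1 = (N ^ (rl c.g.length s k + 1)) o ∧
        o1 = c.ω ((φ ^ (rl c.g.length s k + 1)) o) ∧
        ∃ s', c.kind o1 = some (n, s', 1 - k) := by
    intro o s k ho hk
    obtain ⟨_, _, _, _, h5, h6, _⟩ := hF o s k ho hk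
    obtain ⟨_, h7, _⟩ := hF _ s (1 - k) h5 (by omega)
    exact ⟨_, h5, rfl, h6, by rw [h6]; exact h7⟩
  let Ak : ℕ → Set c.D := fun k => {d | c.rg d = q ∧ ∃ s, c.kind d = some (n, s, k)}
  -- injections in both directions
  have hinj : ∀ k, k < 2 → Nat.card (Ak k) ≤ Nat.card (Ak (1 - k)) := by
    intro k hk
    have hch : ∀ d : Ak k, ∃ s, c.kind d.1 = some (n, s, k) := fun d => d.2.2
    choose sg hsg using hch
    let f : Ak k → Ak (1 - k) := fun d =>
      ⟨(N ^ (rl c.g.length (sg d) k + 1)) d.1, by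
        rw [Set.mem_ofPred_eq]
        refine ⟨by rw [hrgN]; exact d.2.1, ?_⟩
        obtain ⟨o1, _, h2, _, h4⟩ := hpart d.1 (sg d) k (hsg d) hk
        rw [← h2]
        exact h4⟩
    refine Nat.card_le_card_of_injective f ?_
    intro d d' hdd
    have h1 : (N ^ (rl c.g.length (sg d) k + 1)) d.1 = (N ^ (rl c.g.length (sg d') k + 1)) d'.1 :=
      congrArg Subtype.val hdd
    obtain ⟨o1, h2, h3, h4, _⟩ := hpart d.1 (sg d) k (hsg d) hk
    obtain ⟨o1', h2', h3', h4', _⟩ := hpart d'.1 (sg d') k (hsg d') hk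
    rw [← h3, ← h3', h4, h4'] at h1
    have h5 := c.ω.injective h1
    rw [h5, h2'] at h2
    have hs : sg d = sg d' := by
      simp only [Option.some.injEq, Prod.mk.injEq] at h2
      exact h2.2.1.symm
    rw [hs] at h5
    exact Subtype.ext ((φ ^ (rl c.g.length (sg d') k + 1)).injective h5)
  have hm : c.mQ q = Nat.card (Ak 0) + Nat.card (Ak 1) := by
    have h1 : {d : c.D | c.rg d = q ∧ d ∈ c.O} = Ak 0 ∪ Ak 1 := by
      ext d
      constructor
      · rintro ⟨h0, s, h | h⟩
        · exact Or.inl ⟨h0, s, h⟩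
        · exact Or.inr ⟨h0, s, h⟩
      · rintro (⟨h0, s, h⟩ | ⟨h0, s, h⟩)
        · exact ⟨h0, s, Or.inl h⟩
        · exact ⟨h0, s, Or.inr h⟩
    have h2 : Disjoint (Ak 0) (Ak 1) := by
      rw [Set.disjoint_left]
      rintro d ⟨_, s, h⟩ ⟨_, s', h'⟩
      rw [h] at h'
      simp at h'
    have h3 : c.mQ q = Set.ncard {d : c.D | c.rg d = q ∧ d ∈ c.O} := rfl
    rw [h3, h1]
    exact Set.ncard_union_eq h2 (Set.toFinite _) (Set.toFinite _)
  have h01 : Nat.card (Ak 0) ≤ Nat.card (Ak 1) := hinj 0 (by norm_num)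
  have h10 : Nat.card (Ak 1) ≤ Nat.card (Ak 0) := hinj 1 (by norm_num)
  -- the region contains an output
  have hpos : 0 < Nat.card (Ak 0) := by
    have h1 : 0 < c.tQ q := by omega
    obtain ⟨⟨z, x, hxO, _, hxq⟩⟩ := (Nat.card_pos_iff.1 h1).1
    obtain ⟨s, k, hk, hx⟩ := (mem_O c).1 hxO
    have h2 : 0 < Nat.card (Ak k) := Nat.card_pos_iff.2 ⟨⟨⟨x, hxq, s, hx⟩⟩, inferInstance⟩
    obtain rfl | rfl : k = 0 ∨ k = 1 := by omega
    · exact h2
    · omega
  by_contra hcon
  have hA1 : Nat.card (Ak 0) = 1 := by omega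
  have hA2 : Nat.card (Ak 1) = 1 := by omega
  obtain ⟨⟨hsub0⟩, ⟨⟨o, hoq, s, hos⟩⟩⟩ := Nat.card_eq_one_iff_unique.1 hA1
  obtain ⟨⟨hsub1⟩, ⟨⟨o', hoq', s', hos'⟩⟩⟩ := Nat.card_eq_one_iff_unique.1 hA2
  have hun0 : ∀ z, z ∈ Ak 0 → z = o := fun z hz =>
    congrArg Subtype.val (hsub0 ⟨z, hz⟩ ⟨o, hoq, s, hos⟩)
  have hun1 : ∀ z, z ∈ Ak 1 → z = o' := fun z hz =>
    congrArg Subtype.val (hsub1 ⟨z, hz⟩ ⟨o', hoq', s', hos'⟩)
  have hoO : o ∈ c.O := ⟨s, Or.inl hos⟩
  have hoO' : o' ∈ c.O := ⟨s', Or.inr hos'⟩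
  obtain ⟨o1, hp1, hp2, hp3, hp4⟩ := hpart o s 0 hos (by norm_num)
  obtain ⟨o2, hr1, hr2, hr3, hr4⟩ := hpart o' s' 1 hos' (by norm_num)
  have ho1 : o1 = o' := hun1 o1 ⟨by rw [hp2, hrgN]; exact hoq, hp4⟩
  have ho2 : o2 = o := hun0 o2 ⟨by rw [hr2, hrgN]; exact hoq', hr4⟩
  subst ho1
  subst ho2
  set r0 := rl c.g.length s 0 with hr0
  set r1 := rl c.g.length s' 1 with hr1def
  obtain ⟨_, _, _, hm0, _, _, hW0⟩ := hF o2 s 0 hos (by norm_num)
  obtain ⟨_, _, _, hm1, _, _, hW1⟩ := hF o1 s' 1 hos' (by norm_num)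
  have hne : o1 ≠ o2 := by
    rintro rfl
    rw [hos] at hos'
    simp at hos'
  have hscN : N.SameCycle o2 o1 := sameCycle_pow' (r0 + 1) hp2.symm
  -- the hole of the region
  have honly : ∀ d, conn (c.ω * c.σ) c.θ o2 d → kcut n c.kind d = none →
      (c.ω * c.σ * c.θ).SameCycle o2 d := by
    intro d hd hkd
    rw [hNeq]
    have hdq : c.rg d = q := by
      rw [← hoq]
      exact Quotient.sound (conn_symm hd)
    have hkind : ∃ s k, c.kind d = some (n, s, k) := by
      cases hkk : c.kind d with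
      | none =>
        exfalso
        have h1 : 0 < c.bQ q :=
          Nat.card_pos_iff.2 ⟨⟨⟨d, hdq, hkk⟩⟩, inferInstance⟩
        omega
      | some x =>
        obtain ⟨j, t, k⟩ := x
        refine ⟨t, k, ?_⟩
        obtain ⟨r, hr, _⟩ := c.pic.rel d j t k hkk
        obtain ⟨h1, _⟩ := List.getElem?_eq_some_iff.1 hr
        rw [List.length_append, List.length_singleton] at h1
        have h2 : ¬ j < n := by
          intro hlt
          simp [kcut, hkk, hlt] at hkd
        have h3 : j = n := by omega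
        rw [h3]
    obtain ⟨t, k, hk⟩ := hkind
    have hO : ∀ z, z ∈ c.O → c.rg z = q → N.SameCycle o2 z := by
      rintro z ⟨t, hz | hz⟩ hzq
      · rw [hun0 z ⟨hzq, t, hz⟩]
      · rw [hun1 z ⟨hzq, t, hz⟩]
        exact hscN
    by_cases hdO : d ∈ c.O
    · exact hO d hdO hdq
    · obtain ⟨o3, k0, i, hk0, ho3, hi1, hi2, hdi⟩ := hG d t k hk hdO
      obtain ⟨ho3O, _, _, hm3, _⟩ := hF o3 t k0 ho3 hk0
      have hNi := (hm3 i hi1 hi2).2.1
      have h1 : (N ^ i) o3 = d := by rw [hNi, hdi]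
      have h2 : c.rg o3 = q := by rw [← hdq, ← h1, hrgN]
      exact (hO o3 ho3O h2).trans (sameCycle_pow' i h1)
  have hkcut : kcut n c.kind o2 = none := by
    simp [kcut, hos]
  have hB := hB10 P c.R c.D (c.ω * c.σ) c.θ c.h c.ty (kcut n c.kind) o2 hpic hkcut honly
  rw [hNeq] at hB
  -- the word of the hole
  set el := elt (c.ω * c.σ) c.h c.ty with hel
  have hN1 : (N ^ (r0 + 1)) o2 = o1 := hp2.symm
  have hN2 : (N ^ (r1 + 1)) o1 = o2 := hr2.symm
  have hper : Function.minimalPeriod N o2 = (r0 + 1) + (r1 + 1) := by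
    refine per_eq_of N o2 (by omega) ?_ ?_
    · rw [add_comm, pow_add, Perm.mul_apply, hN1, hN2]
    · intro i h0 hi heq
      by_cases hi1 : i ≤ r0
      · obtain ⟨h1, h2, _⟩ := hm0 i h0 hi1
        rw [h2] at heq
        rw [heq] at h1
        exact h1 hoO
      · obtain ⟨j, rfl⟩ : ∃ j, i = j + (r0 + 1) := ⟨i - (r0 + 1), by omega⟩
        rw [pow_add, Perm.mul_apply, hN1] at heq
        rcases Nat.eq_zero_or_pos j with hj | hj
        · rw [hj] at heq
          exact hne heq
        · obtain ⟨h1, h2, _⟩ := hm1 j hj (by omega)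
          rw [h2] at heq
          rw [heq] at h1
          exact h1 hoO
  have hrun : ∀ (r : ℕ) (z : c.D), (∀ i, 1 ≤ i → i ≤ r → (N ^ i) z = (φ ^ i) z) →
      ((List.range (r + 1)).map fun i => el ((N ^ i) z)).prod =
        el z * ((List.range r).map fun i => el ((φ ^ (i + 1)) z)).prod := by
    intro r z hz
    rw [List.range_succ_eq_map, List.map_cons, List.prod_cons, List.map_map]
    congr 2
    refine List.map_congr_left fun i hi => ?_
    rw [List.mem_range] at hi
    simp only [Function.comp_apply, Nat.succ_eq_add_one]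
    rw [hz (i + 1) (by omega) (by omega)]
  have hprod : cycProd N el o2 =
      (el o2 * ((List.range r0).map fun i => el ((φ ^ (i + 1)) o2)).prod) *
        (el o1 * ((List.range r1).map fun i => el ((φ ^ (i + 1)) o1)).prod) := by
    unfold cycProd
    rw [hper, List.range_add, List.map_append, List.prod_append, List.map_map]
    rw [hrun r0 o2 (fun i h1 h2 => (hm0 i h1 h2).2.1)]
    congr 1
    rw [← hrun r1 o1 (fun i h1 h2 => (hm1 i h1 h2).2.1)]
    congr 1
    refine List.map_congr_left fun i _ => ?_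
    simp only [Function.comp_apply]
    rw [add_comm, pow_add, Perm.mul_apply, hN1]
  have hel0 : el o2 = emb c.l (lab (c.ω * c.σ) c.h o2) := by
    rw [hel, elt, ty_zero c hos]
  have hel1 : el o1 = emb c.m (lab (c.ω * c.σ) c.h o1) := by
    rw [hel, elt, ty_one c hos']
  rw [hprod, hW0, hW1, hel0, hel1] at hB
  have hnormal : (NR c.R).Normal := by
    unfold NR
    infer_instance
  set u := lab (c.ω * c.σ) c.h o2 with hu
  set u' := lab (c.ω * c.σ) c.h o1 with hu'
  -- the mirror pair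
  have hmirror : s' = !s → u = 1 → False := by
    intro hss hu1
    have h1 : c.h ((c.ω * c.σ)⁻¹ o2) = c.h o2 := by
      rw [hu, lab, inv_mul_eq_one] at hu1
      exact hu1
    have h2 : (c.ω * c.σ)⁻¹ o2 = c.σ⁻¹ (c.ω⁻¹ o2) := by
      rw [mul_inv_rev, Perm.mul_apply]
    have h3 : c.ω⁻¹ o2 = (φ ^ (r1 + 1)) o1 := by
      rw [Perm.inv_eq_iff_eq]
      exact hr3
    have h4 : c.kind (c.ω⁻¹ o2) = some (n, !s, 0) := by
      rw [h3, hr1, hss]
    have h5 : c.σ.SameCycle o2 (c.ω⁻¹ o2) := by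
      have := c.cut.same (c.ω⁻¹ o2)
      simpa using this
    have h6 := c.red o2 (c.ω⁻¹ o2) n s 0 h5 hos h4
    rw [h2] at h1
    exact h6 h1.symm
  cases s <;> cases s'
  · -- `false, false`
    simp only [Bool.false_eq_true, false_and, true_and, one_ne_zero, or_self, or_false, or_true,
      if_false, if_true, reduceCtorEq, and_self, zero_ne_one, and_false, mul_one] at hB
    refine c.facts.out u u' ?_
    exact hB
  · -- `false, true`
    simp only [Bool.false_eq_true, false_and, true_and, one_ne_zero, or_self, or_false, or_true,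
      if_false, if_true, reduceCtorEq, and_self, zero_ne_one, and_false, mul_one] at hB
    refine hmirror rfl (c.facts.int2 u u' ?_).1
    rw [mul_assoc (emb c.l u * ev c.g)]
    exact hB
  · -- `true, false`
    simp only [Bool.false_eq_true, false_and, true_and, one_ne_zero, or_self, or_false, or_true,
      if_false, if_true, reduceCtorEq, and_self, zero_ne_one, and_false, mul_one] at hB
    exact hmirror rfl (c.facts.int1 u u' hB).1
  · -- `true, true`
    simp only [Bool.false_eq_true, false_and, true_and, one_ne_zero, or_self, or_false, or_true,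
      if_false, if_true, reduceCtorEq, and_self, zero_ne_one, and_false, mul_one] at hB
    refine c.facts.out u⁻¹ u'⁻¹ ?_
    have h1 := hnormal.conj_mem _ ((NR c.R).inv_mem hB) (emb c.l u)⁻¹
    have h2 : (emb c.l u)⁻¹ * (emb c.l u * (emb c.m u' * (ev c.g)⁻¹))⁻¹ * (emb c.l u)⁻¹⁻¹ =
        emb c.l u⁻¹ * ev c.g * emb c.m u'⁻¹ := by
      rw [map_inv, map_inv]
      group
    rw [h2] at h1
    exact h1

theorem C4 (hB10 : T_B10) (hC0 : T_C0) (hC1 : T_C1) : T_C4 := fun _ _ c =>
  ⟨fun q ht hb => region_four hB10 hC0 hC1 c q ht hb, C4_second hC0 c⟩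

end Pool.Agent.H77.TF
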