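import Pool.Agent.H7.TF.Targets

/-!
# Cycles, products along cycles, merging of two cycles
-/

set_option autoImplicit false
set_option linter.unusedSectionVars false

namespace Pool.Agent.H77.TF

open Equiv Pool.Agent.H7.TF

section per

variable {D : Type} [Finite D]

/-- the length of the cycle of `d` -/
noncomputable abbrev per (φ : Perm D) (d : D) : ℕ := Function.minimalPeriod φ d

theorem per_pos (φ : Perm D) (d : D) : 0 < per φ d := by
  refine Function.minimalPeriod_pos_iff_mem_periodicPts.2 ?_
  refine ⟨orderOf φ, orderOf_pos φ, ?_⟩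
  rw [Function.IsPeriodicPt, Function.IsFixedPt, Perm.iterate_eq_pow, pow_orderOf_eq_one,
    Perm.one_apply]

theorem pow_per (φ : Perm D) (d : D) : (φ ^ per φ d) d = d := by
  have := Function.isPeriodicPt_minimalPeriod φ d
  rwa [Function.IsPeriodicPt, Function.IsFixedPt, Perm.iterate_eq_pow] at this

theorem pow_ne_of_lt_per (φ : Perm D) (d : D) {i : ℕ} (h0 : 0 < i) (h : i < per φ d) :
    (φ ^ i) d ≠ d := by
  intro hcon
  refine Function.not_isPeriodicPt_of_pos_of_lt_minimalPeriod h0.ne' h ?_
  rw [Function.IsPeriodicPt, Function.IsFixedPt, Perm.iterate_eq_pow]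
  exact hcon

theorem per_eq_of (φ : Perm D) (d : D) {n : ℕ} (h0 : 0 < n) (h : (φ ^ n) d = d)
    (h' : ∀ i, 0 < i → i < n → (φ ^ i) d ≠ d) : per φ d = n := by
  have h1 : per φ d ≤ n := by
    refine Function.IsPeriodicPt.minimalPeriod_le h0 ?_
    rw [Function.IsPeriodicPt, Function.IsFixedPt, Perm.iterate_eq_pow]
    exact h
  rcases h1.lt_or_eq with h2 | h2
  · exact absurd (pow_per φ d) (h' _ (per_pos φ d) h2)
  · exact h2

theorem pow_mod_per (φ : Perm D) (d : D) (n : ℕ) : (φ ^ (n % per φ d)) d = (φ ^ n) d := by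
  have := Function.iterate_mod_minimalPeriod_eq (f := φ) (x := d) (n := n)
  rwa [Perm.iterate_eq_pow, Perm.iterate_eq_pow] at this

theorem exists_lt_per {φ : Perm D} {d e : D} (h : φ.SameCycle d e) :
    ∃ i < per φ d, (φ ^ i) d = e := by
  obtain ⟨n, hn⟩ := h.exists_nat_pow_eq
  exact ⟨n % per φ d, Nat.mod_lt _ (per_pos φ d), by rw [pow_mod_per, hn]⟩

omit [Finite D] in
theorem sameCycle_pow (φ : Perm D) (d : D) (n : ℕ) : φ.SameCycle d ((φ ^ n) d) :=
  ⟨n, by simp⟩

omit [Finite D] in
theorem sameCycle_pow' {φ : Perm D} {d e : D} (n : ℕ) (h : (φ ^ n) d = e) : φ.SameCycle d e :=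
  h ▸ sameCycle_pow φ d n

theorem pow_inj_of_lt_per (φ : Perm D) (d : D) {i j : ℕ} (hi : i < per φ d) (hj : j < per φ d)
    (h : (φ ^ i) d = (φ ^ j) d) : i = j := by
  wlog hij : i ≤ j generalizing i j
  · exact (this hj hi h.symm (le_of_not_ge hij)).symm
  by_contra hne
  have h1 : (φ ^ (j - i)) d = d := by
    have h2 : (φ ^ i) ((φ ^ (j - i)) d) = (φ ^ i) d := by
      rw [← Perm.mul_apply, ← pow_add, h]
      congr 2
      omega
    exact (φ ^ i).injective h2
  exact pow_ne_of_lt_per φ d (by omega) (by omega) h1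

end per

section local_

variable {D : Type} [Finite D]

/-- if `φ'` agrees with `φ` on the cycle of `d` then the iterates agree -/
theorem pow_eq_of_agree {φ φ' : Perm D} {d : D} (h : ∀ z, φ.SameCycle d z → φ' z = φ z) (n : ℕ) :
    (φ' ^ n) d = (φ ^ n) d := by
  induction n with
  | zero => rfl
  | succ n ih =>
    rw [pow_succ', pow_succ', Perm.mul_apply, Perm.mul_apply, ih, h _ (sameCycle_pow φ d n)]

theorem per_eq_of_agree {φ φ' : Perm D} {d : D} (h : ∀ z, φ.SameCycle d z → φ' z = φ z) :
    per φ' d = per φ d := by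
  refine per_eq_of φ' d (per_pos φ d) ?_ ?_
  · rw [pow_eq_of_agree h, pow_per]
  · intro i h0 hi
    rw [pow_eq_of_agree h]
    exact pow_ne_of_lt_per φ d h0 hi

theorem sameCycle_iff_of_agree {φ φ' : Perm D} {d : D}
    (h : ∀ z, φ.SameCycle d z → φ' z = φ z) (e : D) : φ'.SameCycle d e ↔ φ.SameCycle d e := by
  constructor
  · intro h1
    obtain ⟨i, _, hi⟩ := exists_lt_per h1
    rw [pow_eq_of_agree h] at hi
    exact sameCycle_pow' i hi
  · intro h1
    obtain ⟨i, _, hi⟩ := exists_lt_per h1
    rw [← pow_eq_of_agree h] at hi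
    exact sameCycle_pow' i hi

theorem cycProd_eq_of_agree {G : Type} [Group G] {φ φ' : Perm D} {x x' : D → G} {d : D}
    (h : ∀ z, φ.SameCycle d z → φ' z = φ z) (hx : ∀ z, φ.SameCycle d z → x' z = x z) :
    cycProd φ' x' d = cycProd φ x d := by
  unfold cycProd
  have h1 := per_eq_of_agree h
  unfold per at h1
  rw [h1]
  congr 1
  refine List.map_congr_left fun i _ => ?_
  rw [pow_eq_of_agree h, hx _ (sameCycle_pow φ d i)]

end local_

section prod

variable {D : Type} [Finite D] {G : Type} [Group G]

theorem per_apply (φ : Perm D) (d : D) : per φ (φ d) = per φ d := by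
  refine per_eq_of φ (φ d) (per_pos φ d) ?_ ?_
  · rw [← Perm.mul_apply, ← pow_succ, pow_succ', Perm.mul_apply, pow_per]
  · intro i h0 hi h
    rw [← Perm.mul_apply, ← pow_succ, pow_succ', Perm.mul_apply] at h
    exact pow_ne_of_lt_per φ d h0 hi (φ.injective h)

/-- `cycProd` at the next point -/
theorem cycProd_apply (φ : Perm D) (x : D → G) (d : D) :
    x d * cycProd φ x (φ d) = cycProd φ x d * x d := by
  unfold cycProd
  have h1 : Function.minimalPeriod φ (φ d) = Function.minimalPeriod φ d := per_apply φ d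
  rw [h1]
  set p := Function.minimalPeriod φ d with hp
  have h2 : ((List.range (p + 1)).map fun i => x ((φ ^ i) d)).prod =
      x d * ((List.range p).map fun i => x ((φ ^ i) (φ d))).prod := by
    rw [List.range_succ_eq_map, List.map_cons, List.prod_cons, List.map_map]
    rfl
  have h3 : ((List.range (p + 1)).map fun i => x ((φ ^ i) d)).prod =
      ((List.range p).map fun i => x ((φ ^ i) d)).prod * x d := by
    rw [List.range_succ, List.map_append, List.prod_append]
    have : (φ ^ p) d = d := pow_per φ d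
    simp [this]
  rw [← h2, h3]

theorem cycProd_pow_eq_one (φ : Perm D) (x : D → G) (d : D) (n : ℕ) :
    cycProd φ x ((φ ^ n) d) = 1 ↔ cycProd φ x d = 1 := by
  induction n with
  | zero => rfl
  | succ n ih =>
    rw [← ih, pow_succ', Perm.mul_apply]
    have h := cycProd_apply φ x ((φ ^ n) d)
    constructor
    · intro h1
      rw [h1, mul_one] at h
      exact mul_eq_right.1 h.symm
    · intro h1
      rw [h1, one_mul] at h
      exact mul_eq_left.1 h

/-- triviality of the product does not depend on the base point -/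
theorem cycProd_eq_one_iff {φ : Perm D} {x : D → G} {d e : D} (h : φ.SameCycle d e) :
    cycProd φ x d = 1 ↔ cycProd φ x e = 1 := by
  obtain ⟨i, _, rfl⟩ := exists_lt_per h
  exact (cycProd_pow_eq_one φ x d i).symm

/-- change of the label at the base point -/
theorem cycProd_change (φ : Perm D) (x x' : D → G) (c : D)
    (h : ∀ z, φ.SameCycle c z → z ≠ c → x' z = x z) :
    cycProd φ x' c = x' c * (x c)⁻¹ * cycProd φ x c := by
  unfold cycProd
  obtain ⟨p, hp⟩ : ∃ p, Function.minimalPeriod φ c = p + 1 :=
    ⟨Function.minimalPeriod φ c - 1, by have : 0 < Function.minimalPeriod φ c := per_pos φ c; omega⟩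
  rw [hp, List.range_succ_eq_map, List.map_cons, List.map_cons, List.prod_cons, List.prod_cons,
    List.map_map, List.map_map]
  have h1 : ((List.range p).map ((fun i => x' ((φ ^ i) c)) ∘ Nat.succ)) =
      ((List.range p).map ((fun i => x ((φ ^ i) c)) ∘ Nat.succ)) := by
    refine List.map_congr_left fun i hi => ?_
    rw [List.mem_range] at hi
    refine h _ (sameCycle_pow φ c _) ?_
    refine pow_ne_of_lt_per φ c (Nat.succ_pos i) ?_
    show i.succ < Function.minimalPeriod φ c
    omega
  rw [h1]
  simp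

end prod

section merge

variable {D : Type} [Finite D] [DecidableEq D] {G : Type} [Group G]

theorem merge_pow_left {φ : Perm D} {a b : D} (h : ¬ φ.SameCycle a b) {i : ℕ}
    (hi : i < per φ a) : ((swap a b * φ) ^ i) a = (φ ^ i) a := by
  induction i with
  | zero => rfl
  | succ i ih =>
    rw [pow_succ', pow_succ', Perm.mul_apply, ih (by omega), Perm.mul_apply, Perm.mul_apply]
    refine swap_apply_of_ne_of_ne ?_ ?_
    · rw [← Perm.mul_apply, ← pow_succ']
      exact pow_ne_of_lt_per φ a (Nat.succ_pos i) hi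
    · intro hb
      apply h
      rw [← hb, ← Perm.mul_apply, ← pow_succ']
      exact sameCycle_pow φ a _

theorem merge_pow_per {φ : Perm D} {a b : D} (h : ¬ φ.SameCycle a b) :
    ((swap a b * φ) ^ per φ a) a = b := by
  obtain ⟨p, hp⟩ : ∃ p, per φ a = p + 1 := ⟨per φ a - 1, by have := per_pos φ a; omega⟩
  have h1 := merge_pow_left h (i := p) (by omega)
  rw [hp, pow_succ', Perm.mul_apply, h1, Perm.mul_apply]
  have h2 : φ ((φ ^ p) a) = a := by
    rw [← Perm.mul_apply, ← pow_succ', ← hp, pow_per]
  rw [h2, swap_apply_left]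

theorem merge_pow_right {φ : Perm D} {a b : D} (h : ¬ φ.SameCycle a b) {i : ℕ}
    (hi : i < per φ b) : ((swap a b * φ) ^ (per φ a + i)) a = (φ ^ i) b := by
  rw [add_comm, pow_add, Perm.mul_apply, merge_pow_per h, swap_comm]
  exact merge_pow_left (fun h' => h h'.symm) hi

theorem merge_pow_all {φ : Perm D} {a b : D} (h : ¬ φ.SameCycle a b) :
    ((swap a b * φ) ^ (per φ a + per φ b)) a = a := by
  rw [add_comm, pow_add, Perm.mul_apply, merge_pow_per h, swap_comm]
  exact merge_pow_per (fun h' => h h'.symm)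

theorem merge_per {φ : Perm D} {a b : D} (h : ¬ φ.SameCycle a b) :
    per (swap a b * φ) a = per φ a + per φ b := by
  refine per_eq_of _ _ (by have := per_pos φ a; omega) (merge_pow_all h) ?_
  intro i h0 hi
  by_cases hia : i < per φ a
  · rw [merge_pow_left h hia]
    exact pow_ne_of_lt_per φ a h0 hia
  · obtain ⟨j, rfl⟩ : ∃ j, i = per φ a + j := ⟨i - per φ a, by omega⟩
    rw [merge_pow_right h (by omega)]
    intro hc
    exact h (hc ▸ sameCycle_pow φ b j).symm

/-- the product along the merged cycle -/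
theorem cycProd_merge (φ : Perm D) (x : D → G) {a b : D} (h : ¬ φ.SameCycle a b) :
    cycProd (swap a b * φ) x a = cycProd φ x a * cycProd φ x b := by
  have h1 : Function.minimalPeriod (swap a b * φ : Perm D) a =
      Function.minimalPeriod φ a + Function.minimalPeriod φ b := merge_per h
  unfold cycProd
  rw [h1, List.range_add, List.map_append, List.prod_append, List.map_map]
  congr 2
  · refine List.map_congr_left fun i hi => ?_
    rw [List.mem_range] at hi
    rw [merge_pow_left h hi]
  · refine List.map_congr_left fun i hi => ?_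
    rw [List.mem_range] at hi
    simp only [Function.comp_apply]
    rw [merge_pow_right h hi]

/-- the merged cycle -/
theorem merge_sameCycle {φ : Perm D} {a b : D} (h : ¬ φ.SameCycle a b) (z : D) :
    (swap a b * φ).SameCycle a z ↔ φ.SameCycle a z ∨ φ.SameCycle b z := by
  constructor
  · intro h1
    obtain ⟨i, hi, rfl⟩ := exists_lt_per h1
    rw [merge_per h] at hi
    by_cases hia : i < per φ a
    · rw [merge_pow_left h hia]
      exact Or.inl (sameCycle_pow φ a i)
    · obtain ⟨j, rfl⟩ : ∃ j, i = per φ a + j := ⟨i - per φ a, by omega⟩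
      rw [merge_pow_right h (by omega)]
      exact Or.inr (sameCycle_pow φ b j)
  · rintro (h1 | h1)
    · obtain ⟨i, hi, rfl⟩ := exists_lt_per h1
      rw [← merge_pow_left h hi]
      exact sameCycle_pow _ a i
    · obtain ⟨i, hi, rfl⟩ := exists_lt_per h1
      rw [← merge_pow_right h hi]
      exact sameCycle_pow _ a _

/-- the other cycles do not change -/
theorem swap_agree {φ : Perm D} {a b d : D} (ha : ¬ φ.SameCycle d a) (hb : ¬ φ.SameCycle d b) :
    ∀ z, φ.SameCycle d z → (swap a b * φ) z = φ z := by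
  intro z hz
  rw [Perm.mul_apply]
  refine swap_apply_of_ne_of_ne ?_ ?_
  · rintro rfl
    exact ha (hz.trans (sameCycle_pow φ z 1))
  · rintro rfl
    exact hb (hz.trans (sameCycle_pow φ z 1))

/-- removing a point from its cycle -/
theorem cycProd_remove (φ : Perm D) (x : D → G) {d : D} (hd : φ d ≠ d) :
    ¬ (swap (φ d) d * φ).SameCycle d (φ d) ∧
    cycProd φ x d = x d * cycProd (swap (φ d) d * φ) x (φ d) := by
  set ψ : Perm D := swap (φ d) d * φ with hψ
  have h1 : ψ d = d := by rw [hψ, Perm.mul_apply, swap_apply_left]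
  have h2 : ¬ ψ.SameCycle d (φ d) := by
    rintro ⟨n, hn⟩
    have h3 : (ψ ^ n) d = d := Perm.zpow_apply_eq_self_of_apply_eq_self h1 n
    exact hd (hn ▸ h3)
  refine ⟨h2, ?_⟩
  have h3 : φ = swap d (φ d) * ψ := by
    rw [hψ, swap_comm d (φ d), ← mul_assoc, swap_mul_self, one_mul]
  conv_lhs => rw [h3]
  rw [cycProd_merge ψ x h2]
  congr 1
  have h4 : per ψ d = 1 := per_eq_of ψ d one_pos (by simpa using h1) (by omega)
  unfold cycProd
  unfold per at h4
  rw [h4]
  simp

end merge

end Pool.Agent.H77.TF
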